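import Mathlib

set_option autoImplicit false

namespace Pool.Agent.H805Z.Specht

open ExteriorAlgebra AddMonoidAlgebra

variable {F : Type} [Field F] {M : Type} [AddCommGroup M] [Module F M]
variable {Γ : Type} [AddCommGroup Γ]

/-- parity automorphism of the exterior algebra -/
noncomputable abbrev inv : ExteriorAlgebra F M →ₐ[F] ExteriorAlgebra F M :=
  CliffordAlgebra.involute

lemma iota_anti (x y : M) : ι F x * ι F y = -(ι F y * ι F x) :=
  eq_neg_of_add_eq_zero_left (ι_add_mul_swap x y)

lemma iota_mul (m : M) (e : ExteriorAlgebra F M) : ι F m * e = inv e * ι F m := by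
  induction e using ExteriorAlgebra.induction with
  | algebraMap r => rw [AlgHom.commutes, Algebra.commutes]
  | ι x => rw [CliffordAlgebra.involute_ι, iota_anti]; simp
  | mul a b ha hb => rw [← mul_assoc, ha, mul_assoc, hb, map_mul, mul_assoc]
  | add a b ha hb => rw [mul_add, ha, hb, map_add, add_mul]

lemma even_comm (u : ExteriorAlgebra F M) (hu : inv u = u) (e : ExteriorAlgebra F M) :
    u * e = e * u := by
  induction e using ExteriorAlgebra.induction with
  | algebraMap r => rw [Algebra.commutes]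
  | ι x => rw [iota_mul, hu]
  | mul a b ha hb => rw [← mul_assoc, ha, mul_assoc, hb, mul_assoc]
  | add a b ha hb => rw [mul_add, ha, hb, add_mul]

lemma odd_comm (u : ExteriorAlgebra F M) (hu : inv u = -u) (e : ExteriorAlgebra F M) :
    u * e = inv e * u := by
  induction e using ExteriorAlgebra.induction with
  | algebraMap r => rw [AlgHom.commutes, Algebra.commutes]
  | ι x => rw [CliffordAlgebra.involute_ι, neg_mul, iota_mul, hu]; simp
  | mul a b ha hb => rw [← mul_assoc, ha, mul_assoc, hb, map_mul, mul_assoc]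
  | add a b ha hb => rw [mul_add, ha, hb, map_add, add_mul]

lemma cube_add {R : Type} [Ring R] [Algebra F R] (h3 : (3 : F) = 0) (x y : R)
    (h : x * y = y * x) : (x + y) * (x + y) * (x + y) = x * x * x + y * y * y := by
  have h1 : (x + y) * (x + y) * (x + y) = x * x * x + y * y * y +
      (x * x * y + x * (y * x) + (y * x) * x) + (x * y * y + (y * x) * y + y * (y * x)) := by
    noncomm_ring
  have h2 : y * (x * y) = x * y * y := by rw [← mul_assoc, ← h]
  have h4 : x * y * x = x * x * y := by rw [mul_assoc, ← h, mul_assoc]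
  rw [h1, ← h, h2, h4, ← mul_assoc x x y]
  have h5 : ∀ z : R, z + z + z = 0 := by
    intro z
    have : z + z + z = (3 : F) • z := by
      rw [show (3 : F) = 1 + 1 + 1 by norm_num, add_smul, add_smul, one_smul]
    rw [this, h3, zero_smul]
  rw [h5, h5]
  simp

lemma two_ne (h3 : (3 : F) = 0) : (2 : F) ≠ 0 := by
  intro h
  have : (1 : F) = 0 := by linear_combination h3 - h
  exact one_ne_zero this

lemma even_cube (h3 : (3 : F) = 0) (e : ExteriorAlgebra F M) (he : inv e = e) :
    ∃ c : F, e * e * e = algebraMap F _ c := by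
  have hm : e ∈ CliffordAlgebra.evenOdd (0 : QuadraticForm F M) 0 := by
    have htop := (CliffordAlgebra.evenOdd_isCompl (0 : QuadraticForm F M)).sup_eq_top
    have : e ∈ CliffordAlgebra.evenOdd (0 : QuadraticForm F M) 0 ⊔
        CliffordAlgebra.evenOdd (0 : QuadraticForm F M) 1 := by rw [htop]; trivial
    obtain ⟨a, ha, b, hb, rfl⟩ := Submodule.mem_sup.1 this
    rw [map_add, CliffordAlgebra.involute_eq_of_mem_even ha,
      CliffordAlgebra.involute_eq_of_mem_odd hb] at he
    have h1 : (2 : F) • b = 0 := by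
      rw [two_smul]
      have := add_left_cancel he
      nth_rewrite 1 [← this]
      abel
    have h2 : b = 0 := (smul_eq_zero.1 h1).resolve_left (two_ne h3)
    rw [h2, add_zero]
    exact ha
  clear he
  induction e, hm using CliffordAlgebra.even_induction with
  | algebraMap r => exact ⟨r * r * r, by simp⟩
  | add x y hx hy ihx ihy =>
    obtain ⟨c1, h1⟩ := ihx
    obtain ⟨c2, h2⟩ := ihy
    refine ⟨c1 + c2, ?_⟩
    rw [cube_add h3 x y (even_comm x (CliffordAlgebra.involute_eq_of_mem_even hx) y), h1, h2,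
      map_add]
  | ι_mul_ι_mul m₁ m₂ x hx _ =>
    refine ⟨0, ?_⟩
    have h1 := even_comm x (CliffordAlgebra.involute_eq_of_mem_even hx) (ι F m₁)
    have h2 : ι F m₁ * ι F m₂ * x * ι F m₁ = 0 := by
      rw [mul_assoc, h1, ← mul_assoc, mul_assoc (ι F m₁), iota_anti m₂ m₁]
      simp [← mul_assoc]
    rw [map_zero]
    have : ι F m₁ * ι F m₂ * x * (ι F m₁ * ι F m₂ * x) = 0 := by
      rw [← mul_assoc, ← mul_assoc, h2]; simp
    exact (congrArg (· * (ι F m₁ * ι F m₂ * x)) this).trans (zero_mul _)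

/-- forms on the group algebra -/
abbrev Om (F : Type) [Field F] (M : Type) [AddCommGroup M] [Module F M] (Γ : Type)
    [AddCommGroup Γ] := AddMonoidAlgebra (ExteriorAlgebra F M) Γ

/-- parity -/
noncomputable def sg : Om F M Γ →ₐ[F] Om F M Γ := mapAlgHom Γ inv

@[simp] lemma sg_single (γ : Γ) (e : ExteriorAlgebra F M) :
    sg (single γ e : Om F M Γ) = single γ (inv e) := by simp [sg]

lemma sg_sg (a : Om F M Γ) : sg (sg a) = a := by
  induction a using AddMonoidAlgebra.induction_linear with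
  | zero => simp
  | add x y hx hy => simp [hx, hy]
  | single m r => simp

/-- differential -/
noncomputable def dd (θ : Γ →+ M) : Om F M Γ →ₗ[F] Om F M Γ :=
  (Finsupp.lsum F fun γ : Γ => (lsingle γ).comp (LinearMap.mulLeft F (ι F (θ γ)))).comp
    (coeffLinearEquiv F).toLinearMap

@[simp] lemma dd_single (θ : Γ →+ M) (γ : Γ) (e : ExteriorAlgebra F M) :
    dd θ (single γ e : Om F M Γ) = single γ (ι F (θ γ) * e) := by
  simp [dd]

lemma dd_mul (θ : Γ →+ M) (a b : Om F M Γ) : dd θ (a * b) = dd θ a * b + sg a * dd θ b := by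
  induction a using AddMonoidAlgebra.induction_linear with
  | zero => simp
  | add x y hx hy => simp only [add_mul, map_add, hx, hy]; abel
  | single m r =>
    induction b using AddMonoidAlgebra.induction_linear with
    | zero => simp
    | add x y hx hy => simp only [mul_add, map_add, hx, hy]; abel
    | single m' r' =>
      simp only [single_mul_single, dd_single, sg_single, ← single_add, map_add, add_mul]
      congr 1
      rw [← mul_assoc (inv r), ← iota_mul]
      simp only [mul_assoc]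

lemma dd_dd (θ : Γ →+ M) (a : Om F M Γ) : dd θ (dd θ a) = 0 := by
  induction a using AddMonoidAlgebra.induction_linear with
  | zero => simp
  | add x y hx hy => simp only [map_add, hx, hy, add_zero]
  | single m r => simp [← mul_assoc]

lemma sg_dd (θ : Γ →+ M) (a : Om F M Γ) : sg (dd θ a) = -dd θ (sg a) := by
  induction a using AddMonoidAlgebra.induction_linear with
  | zero => simp
  | add x y hx hy => simp only [map_add, hx, hy]; abel
  | single m r => simp [single_neg]

lemma coeff_sg (a : Om F M Γ) (γ : Γ) : (sg a).coeff γ = inv (a.coeff γ) := by simp [sg]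

lemma induction_parity (ε : F) (P : Om F M Γ → Prop) (h0 : P 0)
    (hadd : ∀ x y, sg x = ε • x → sg y = ε • y → P x → P y → P (x + y))
    (hs : ∀ γ e, inv e = ε • e → P (single γ e)) (a : Om F M Γ) (ha : sg a = ε • a) : P a := by
  classical
  have hc : ∀ γ, inv (a.coeff γ) = ε • a.coeff γ := by
    intro γ
    rw [← coeff_sg, ha]; simp
  have key : ∀ s : Finset Γ, sg (∑ γ ∈ s, single γ (a.coeff γ) : Om F M Γ)
      = ε • (∑ γ ∈ s, single γ (a.coeff γ)) ∧ P (∑ γ ∈ s, single γ (a.coeff γ)) := by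
    intro s
    induction s using Finset.induction_on with
    | empty => simpa using h0
    | insert γ s hγ ih =>
      rw [Finset.sum_insert hγ]
      have h1 : sg (single γ (a.coeff γ) : Om F M Γ) = ε • single γ (a.coeff γ) := by
        rw [sg_single, hc, smul_single]
      exact ⟨by rw [map_add, h1, ih.1, smul_add], hadd _ _ h1 ih.1 (hs _ _ (hc γ)) ih.2⟩
  have := (key a.coeff.support).2
  have h2 := sum_coeff_single a
  rw [Finsupp.sum] at h2
  rwa [h2] at this

lemma om_even_comm (a : Om F M Γ) (ha : sg a = a) (b : Om F M Γ) : a * b = b * a := by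
  refine induction_parity (1 : F) (fun a => a * b = b * a) (by simp) ?_ ?_ a (by simpa using ha)
  · intro x y _ _ hx hy
    simp only [add_mul, mul_add, hx, hy]
  · intro γ e he
    induction b using AddMonoidAlgebra.induction_linear with
    | zero => simp
    | add x y hx hy => simp only [add_mul, mul_add, hx, hy]
    | single m r =>
      simp only [single_mul_single]
      rw [even_comm e (by simpa using he), add_comm]

lemma om_odd_comm (a : Om F M Γ) (ha : sg a = -a) (b : Om F M Γ) : a * b = sg b * a := by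
  refine induction_parity (-1 : F) (fun a => a * b = sg b * a) (by simp) ?_ ?_ a
    (by simpa using ha)
  · intro x y _ _ hx hy
    simp only [add_mul, mul_add, hx, hy]
  · intro γ e he
    induction b using AddMonoidAlgebra.induction_linear with
    | zero => simp
    | add x y hx hy => simp only [add_mul, mul_add, map_add, hx, hy]
    | single m r =>
      simp only [single_mul_single, sg_single]
      rw [odd_comm e (by simpa using he), add_comm]

lemma odd_sq (h3 : (3 : F) = 0) (a : Om F M Γ) (ha : sg a = -a) : a * a = 0 := by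
  have h := om_odd_comm a ha a
  rw [ha, neg_mul] at h
  have h1 : (2 : F) • (a * a) = 0 := by
    rw [two_smul]
    nth_rewrite 1 [h]
    abel
  exact (smul_eq_zero.1 h1).resolve_left (two_ne h3)

/-- exact forms plus constant forms of degree `j` -/
noncomputable def TT (θ : Γ →+ M) (j : ℕ) : Submodule F (Om F M Γ) :=
  LinearMap.range (dd θ) ⊔ Submodule.map (lsingle (0 : Γ)) (⋀[F]^j M)

lemma mem_TT (θ : Γ →+ M) (j : ℕ) (x : Om F M Γ) :
    x ∈ TT θ j ↔ ∃ a : Om F M Γ, ∃ e ∈ ⋀[F]^j M, x = dd θ a + single 0 e := by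
  rw [TT, Submodule.mem_sup]
  constructor
  · rintro ⟨_, ⟨a, rfl⟩, _, ⟨e, he, rfl⟩, rfl⟩
    exact ⟨a, e, he, rfl⟩
  · rintro ⟨a, e, he, rfl⟩
    exact ⟨_, ⟨a, rfl⟩, _, ⟨e, he, rfl⟩, rfl⟩

lemma TT_mul (θ : Γ →+ M) (i j : ℕ) (x y : Om F M Γ) (hx : x ∈ TT θ i) (hy : y ∈ TT θ j) :
    x * y ∈ TT θ (i + j) := by
  rw [mem_TT] at *
  obtain ⟨a, e, he, rfl⟩ := hx
  obtain ⟨b, f, hf, rfl⟩ := hy
  refine ⟨a * dd θ b + a * single 0 f + sg (single 0 e) * b, e * f, ?_, ?_⟩
  · rw [exteriorPower, pow_add]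
    exact Submodule.mul_mem_mul he hf
  · simp only [map_add, dd_mul, dd_dd, sg_sg, mul_zero, add_zero]
    simp only [sg_single, dd_single, map_zero, zero_mul, single_zero, mul_zero, add_zero, zero_add]
    have : (single 0 (e * f) : Om F M Γ) = single 0 e * single 0 f := by
      rw [single_mul_single, add_zero]
    rw [this]
    noncomm_ring

lemma even_key (h3 : (3 : F) = 0) (hΓ : ∀ γ : Γ, γ + γ + γ = 0) (θ : Γ →+ M) (a : Om F M Γ)
    (ha : sg a = a) : a * a * a ∈ TT θ 0 ∧ a * a * dd θ a ∈ TT θ 1 := by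
  refine induction_parity (1 : F) (fun a => a * a * a ∈ TT θ 0 ∧ a * a * dd θ a ∈ TT θ 1)
    (by simp) ?_ ?_ a (by simpa using ha)
  · intro x y hx hy ihx ihy
    rw [one_smul] at hx hy
    have cx := om_even_comm x hx
    have cy := om_even_comm y hy
    refine ⟨?_, ?_⟩
    · rw [cube_add h3 x y (cx y)]
      exact Submodule.add_mem _ ihx.1 ihy.1
    · have h1 : (x + y) * (x + y) * dd θ (x + y) = x * x * dd θ x + y * y * dd θ y +
          dd θ (x * x * y + x * y * y) := by
        simp only [map_add, dd_mul, map_mul, hx, hy]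
        have e1 : dd θ x * x = x * dd θ x := (cx _).symm
        have e2 : dd θ x * y = y * dd θ x := (cy _).symm
        have e3 : dd θ y * y = y * dd θ y := (cy _).symm
        have e4 : y * x = x * y := (cx _).symm
        have e5 : y * dd θ x * y = y * y * dd θ x := by rw [mul_assoc, e2, mul_assoc]
        have e6 : x * dd θ x * y = x * y * dd θ x := by rw [mul_assoc, e2, mul_assoc]
        have e7 : x * dd θ y * y = x * y * dd θ y := by rw [mul_assoc, e3, mul_assoc]
        simp only [add_mul, mul_add, e1, e2, e4, e5, e6, e7]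
        abel
      rw [h1]
      refine Submodule.add_mem _ (Submodule.add_mem _ ihx.2 ihy.2) ?_
      exact Submodule.mem_sup_left ⟨_, rfl⟩
  · intro γ e he
    rw [one_smul] at he
    obtain ⟨c, hc⟩ := even_cube h3 e he
    refine ⟨?_, ?_⟩
    · rw [mem_TT]
      refine ⟨0, algebraMap F _ c, ?_, ?_⟩
      · rw [exteriorPower, pow_zero]
        exact Submodule.algebraMap_mem c
      · simp only [single_mul_single, hΓ, hc, map_zero, zero_add]
    · rw [mem_TT]
      refine ⟨0, c • ι F (θ γ), ?_, ?_⟩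
      · rw [exteriorPower, pow_one]
        exact Submodule.smul_mem _ _ ⟨_, rfl⟩
      · simp only [dd_single, single_mul_single, hΓ, map_zero, zero_add]
        congr 1
        rw [← even_comm e he (ι F (θ γ)), ← mul_assoc, hc, Algebra.smul_def]

/-- the subalgebra of the elements `a + d a`, `a` even -/
noncomputable def GG (θ : Γ →+ M) : Subalgebra F (Om F M Γ) where
  carrier := {g | ∃ a : Om F M Γ, sg a = a ∧ g = a + dd θ a}
  mul_mem' := by
    rintro _ _ ⟨a, ha, rfl⟩ ⟨b, hb, rfl⟩
    refine ⟨a * b + dd θ a * dd θ b, ?_, ?_⟩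
    · simp only [map_add, map_mul, sg_dd, ha, hb]; simp
    · simp only [map_add, dd_mul, dd_dd, ha, zero_mul, mul_zero, add_zero]
      noncomm_ring
  add_mem' := by
    rintro _ _ ⟨a, ha, rfl⟩ ⟨b, hb, rfl⟩
    exact ⟨a + b, by rw [map_add, ha, hb], by rw [map_add]; abel⟩
  algebraMap_mem' r := by
    refine ⟨algebraMap F _ r, AlgHom.commutes _ r, ?_⟩
    have : dd θ (algebraMap F (Om F M Γ) r) = 0 := by
      simp [AddMonoidAlgebra.coe_algebraMap]
    rw [this, add_zero]

lemma comm_eq (θ : Γ →+ M) (a b : Om F M Γ) (ha : sg a = a) (hb : sg b = b) :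
    (a + dd θ a) * (b + dd θ b) - (b + dd θ b) * (a + dd θ a) = (2 : F) • (dd θ a * dd θ b) := by
  have h1 : dd θ b * dd θ a = -(dd θ a * dd θ b) := by
    rw [om_odd_comm (dd θ b) (by rw [sg_dd, hb]), sg_dd, ha, neg_mul]
  have ca := om_even_comm a ha
  have cb := om_even_comm b hb
  simp only [add_mul, mul_add, h1, ← ca (dd θ b), ← cb (dd θ a), ← ca b, two_smul]
  abel

lemma GG_comm_even (θ : Γ →+ M) (x y : Om F M Γ) (hx : x ∈ GG θ) (hy : y ∈ GG θ) :
    sg (x * y - y * x) = x * y - y * x := by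
  obtain ⟨a, ha, rfl⟩ := hx
  obtain ⟨b, hb, rfl⟩ := hy
  rw [comm_eq θ a b ha hb, map_smul, map_mul, sg_dd, sg_dd, ha, hb]
  simp

/-- the polynomial `x² [x, y] y²` -/
def ww {R : Type} [Ring R] (x y : R) : R := x * x * (x * y - y * x) * (y * y)

lemma ww_eq (h3 : (3 : F) = 0) (θ : Γ →+ M) (a b : Om F M Γ) (ha : sg a = a) (hb : sg b = b) :
    ww (a + dd θ a) (b + dd θ b) = (2 : F) • (a * a * dd θ a * (b * b * dd θ b)) := by
  have sa := odd_sq h3 (dd θ a) (by rw [sg_dd, ha])
  have sb := odd_sq h3 (dd θ b) (by rw [sg_dd, hb])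
  have ca := om_even_comm a ha
  have cb := om_even_comm b hb
  have e1 : (a + dd θ a) * dd θ a = a * dd θ a := by rw [add_mul, sa, add_zero]
  have e2 : (a + dd θ a) * (a + dd θ a) * dd θ a = a * a * dd θ a := by
    rw [mul_assoc, e1, ca (dd θ a), ← mul_assoc, e1, mul_assoc, ← ca (dd θ a), mul_assoc]
  have e3 : dd θ b * (b + dd θ b) = b * dd θ b := by rw [mul_add, sb, add_zero, cb]
  have e4 : dd θ b * ((b + dd θ b) * (b + dd θ b)) = b * b * dd θ b := by
    rw [← mul_assoc, e3, mul_assoc, e3, mul_assoc]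
  rw [ww, comm_eq θ a b ha hb, mul_smul_comm, smul_mul_assoc, ← e2, ← e4]
  simp only [mul_assoc]

lemma GG_ww (h3 : (3 : F) = 0) (hΓ : ∀ γ : Γ, γ + γ + γ = 0) (θ : Γ →+ M) (x y : Om F M Γ)
    (hx : x ∈ GG θ) (hy : y ∈ GG θ) : ww x y ∈ TT θ 2 ∧ sg (ww x y) = ww x y := by
  obtain ⟨a, ha, rfl⟩ := hx
  obtain ⟨b, hb, rfl⟩ := hy
  rw [ww_eq h3 θ a b ha hb]
  refine ⟨Submodule.smul_mem _ _
    (TT_mul θ 1 1 _ _ (even_key h3 hΓ θ a ha).2 (even_key h3 hΓ θ b hb).2), ?_⟩
  simp only [map_smul, map_mul, sg_dd, ha, hb]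
  simp

lemma GG_cube (h3 : (3 : F) = 0) (hΓ : ∀ γ : Γ, γ + γ + γ = 0) (θ : Γ →+ M) (x : Om F M Γ)
    (hx : x ∈ GG θ) : x * x * x ∈ TT θ 0 := by
  obtain ⟨a, ha, rfl⟩ := hx
  rw [cube_add h3 a _ (om_even_comm a ha _), odd_sq h3 (dd θ a) (by rw [sg_dd, ha]), zero_mul,
    add_zero]
  exact (even_key h3 hΓ θ a ha).1

lemma ww_gen (h3 : (3 : F) = 0) (hΓ : ∀ γ : Γ, γ + γ + γ = 0) (θ : Γ →+ M) (α β : Γ) :
    ww ((single α 1 : Om F M Γ) + dd θ (single α 1)) (single β 1 + dd θ (single β 1))
      = (2 : F) • single 0 (ι F (θ α) * ι F (θ β)) := by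
  rw [ww_eq h3 θ _ _ (by simp) (by simp)]
  simp only [dd_single, single_mul_single, hΓ, mul_one, one_mul, add_zero]

lemma gen_mem (θ : Γ →+ M) (α : Γ) : (single α 1 : Om F M Γ) + dd θ (single α 1) ∈ GG θ :=
  ⟨single α 1, by simp, rfl⟩

end Pool.Agent.H805Z.Specht
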