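import Mathlib

set_option autoImplicit false

namespace Pool.Agent.H805Z.Specht

/-- `f` has no constant term: `FreeAlgebra.algebraMapInv` sends every variable to `0`. -/
def NoConst {F : Type} [Field F] (f : FreeAlgebra F ℕ) : Prop :=
  FreeAlgebra.algebraMapInv f = 0

/-- `f` vanishes under every substitution of elements of `A` for the variables. -/
def Vanishes (F : Type) [Field F] (A : Type) [Ring A] [Algebra F A] (f : FreeAlgebra F ℕ) : Prop :=
  ∀ φ : ℕ → A, FreeAlgebra.lift F φ f = 0

/-- `f` is a polynomial identity of `A`: it has no constant term and vanishes on `A`. -/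
def IsIdentity (F : Type) [Field F] (A : Type) [Ring A] [Algebra F A] (f : FreeAlgebra F ℕ) :
    Prop :=
  NoConst f ∧ Vanishes F A f

/-- A T-ideal of the free associative algebra without unit: an ideal consisting of polynomials
without constant term that is stable under all substitutions of polynomials without constant term
for the variables. -/
def IsTIdeal {F : Type} [Field F] (I : TwoSidedIdeal (FreeAlgebra F ℕ)) : Prop :=
  (∀ f ∈ I, NoConst f) ∧
    ∀ ψ : ℕ → FreeAlgebra F ℕ, (∀ i, NoConst (ψ i)) → ∀ g ∈ I, FreeAlgebra.lift F ψ g ∈ I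

/-- The identities of `A` are generated, as a T-ideal, by finitely many polynomials. -/
def FinitelyBased (F : Type) [Field F] (A : Type) [Ring A] [Algebra F A] : Prop :=
  ∃ S : Finset (FreeAlgebra F ℕ), ∀ f : FreeAlgebra F ℕ,
    IsIdentity F A f ↔
      ∀ I : TwoSidedIdeal (FreeAlgebra F ℕ), IsTIdeal I → (∀ g ∈ S, g ∈ I) → f ∈ I

end Pool.Agent.H805Z.Specht
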