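import Mathlib
import Pool.Agent.H805Z.Specht.Defs

set_option autoImplicit false

namespace Pool.Agent.H805Z.Specht

variable {F : Type} [Field F]

lemma map_lift {A B : Type} [Ring A] [Algebra F A] [Ring B] [Algebra F B] (g : A →ₐ[F] B)
    (φ : ℕ → A) (f : FreeAlgebra F ℕ) :
    g (FreeAlgebra.lift F φ f) = FreeAlgebra.lift F (fun i => g (φ i)) f := by
  have : g.comp (FreeAlgebra.lift F φ) = FreeAlgebra.lift F (fun i => g (φ i)) := by
    ext; simp
  exact DFunLike.congr_fun this f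

lemma vanishes_transfer {R A B : Type} [Ring R] [Algebra F R] [Ring A] [Algebra F A] [Ring B]
    [Algebra F B] (ρ1 : R →ₐ[F] A) (ρ2 : R →ₐ[F] B) (hs : Function.Surjective ρ2)
    (hk : ∀ r, ρ1 r = 0 → ρ2 r = 0) (f : FreeAlgebra F ℕ) (h : Vanishes F A f) :
    Vanishes F B f := by
  intro φ
  choose ψ hψ using fun i => hs (φ i)
  have h1 : ρ1 (FreeAlgebra.lift F ψ f) = 0 := by rw [map_lift]; exact h _
  have h2 := hk _ h1
  rw [map_lift] at h2
  simpa [hψ] using h2

lemma vanishes_inj {R A : Type} [Ring R] [Algebra F R] [Ring A] [Algebra F A]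
    (ρ1 : R →ₐ[F] A) (hi : Function.Injective ρ1) (f : FreeAlgebra F ℕ) (h : Vanishes F A f) :
    Vanishes F R f :=
  vanishes_transfer ρ1 (AlgHom.id F R) Function.surjective_id
    (fun r hr => hi (by rw [map_zero]; exact hr)) f h

lemma vanishes_matrix_comm [Infinite F] (n : Type) [Fintype n] [DecidableEq n] (C : Type)
    [CommRing C] [Algebra F C] (f : FreeAlgebra F ℕ) (h : Vanishes F (Matrix n n F) f) :
    Vanishes F (Matrix n n C) f := by
  intro φ
  let X : ℕ → Matrix n n (MvPolynomial (ℕ × n × n) F) :=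
    fun k => Matrix.of fun i j => MvPolynomial.X (k, i, j)
  have h1 : FreeAlgebra.lift F X f = 0 := by
    ext1 i j
    apply MvPolynomial.funext
    intro x
    have := map_lift ((MvPolynomial.aeval x :
      MvPolynomial (ℕ × n × n) F →ₐ[F] F).mapMatrix (m := n)) X f
    rw [h] at this
    have h2 := congrFun (congrFun this i) j
    simpa [MvPolynomial.aeval_eq_eval] using h2
  have h2 := map_lift ((MvPolynomial.aeval (fun p : ℕ × n × n => φ p.1 p.2.1 p.2.2) :
      MvPolynomial (ℕ × n × n) F →ₐ[F] C).mapMatrix (m := n)) X f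
  rw [h1, map_zero] at h2
  rw [h2]
  congr 2
  funext k
  ext i j
  simp [X]

lemma vanishes_poly [Infinite F] (C : Type) [CommRing C] [Algebra F C] (f : FreeAlgebra F ℕ)
    (h : Vanishes F (Matrix (Fin 6) (Fin 6) F) f) :
    Vanishes F (Polynomial (Matrix (Fin 2) (Fin 2) (Matrix (Fin 3) (Fin 3) C))) f := by
  have h1 := vanishes_matrix_comm (Fin 6) (Polynomial C) f h
  let e1 : Matrix (Fin 2) (Fin 2) (Matrix (Fin 3) (Fin 3) C) ≃ₐ[F] Matrix (Fin 6) (Fin 6) C :=
    (Matrix.compAlgEquiv (Fin 2) (Fin 3) C F).trans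
      (Matrix.reindexAlgEquiv F C (finProdFinEquiv (m := 2) (n := 3)))
  let e2 : Polynomial (Matrix (Fin 6) (Fin 6) C) ≃ₐ[F] Matrix (Fin 6) (Fin 6) (Polynomial C) :=
    (matPolyEquiv (R := C) (n := Fin 6)).symm.restrictScalars F
  let e := (Polynomial.mapAlgEquiv e1).trans e2
  exact vanishes_inj e.toAlgHom e.injective f h1

/-- block diagonal embedding -/
noncomputable def blockHom (m k : Type) [Fintype m] [DecidableEq m] [Fintype k] [DecidableEq k] :
    (Matrix m m F × Matrix k k F) →ₐ[F] Matrix (m ⊕ k) (m ⊕ k) F where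
  toFun p := Matrix.fromBlocks p.1 0 0 p.2
  map_one' := by simp
  map_mul' p q := by simp [Matrix.fromBlocks_multiply]
  map_zero' := by simp
  map_add' p q := by simp [Matrix.fromBlocks_add]
  commutes' r := by
    simp only [Algebra.algebraMap_eq_smul_one, Prod.smul_fst, Prod.smul_snd, Prod.fst_one,
      Prod.snd_one]
    rw [← Matrix.fromBlocks_one, Matrix.fromBlocks_smul]
    simp

lemma vanishes_down (n : ℕ) (hn : 6 ≤ n) (f : FreeAlgebra F ℕ)
    (h : Vanishes F (Matrix (Fin n) (Fin n) F) f) : Vanishes F (Matrix (Fin 6) (Fin 6) F) f := by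
  obtain ⟨k, rfl⟩ := Nat.exists_eq_add_of_le hn
  let e : Matrix (Fin 6 ⊕ Fin k) (Fin 6 ⊕ Fin k) F ≃ₐ[F] Matrix (Fin (6 + k)) (Fin (6 + k)) F :=
    Matrix.reindexAlgEquiv F F finSumFinEquiv
  refine vanishes_transfer (e.toAlgHom.comp (blockHom (Fin 6) (Fin k))) (AlgHom.fst F _ _)
    Prod.fst_surjective ?_ f h
  intro r hr
  have h1 : blockHom (F := F) (Fin 6) (Fin k) r = 0 := by
    apply e.injective
    rw [map_zero]
    exact hr
  have h2 : Matrix.fromBlocks r.1 0 0 r.2 = Matrix.fromBlocks 0 0 0 0 := by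
    rw [Matrix.fromBlocks_zero]; exact h1
  exact (Matrix.fromBlocks_inj.1 h2).1

/-- passing to polynomials over `2 × 2` matrices -/
noncomputable def up {R A : Type} [Ring R] [Algebra F R] [Ring A] [Algebra F A] (ρ : R →ₐ[F] A) :
    Polynomial (Matrix (Fin 2) (Fin 2) R) →ₐ[F] Polynomial (Matrix (Fin 2) (Fin 2) A) :=
  Polynomial.mapAlgHom (ρ.mapMatrix (m := Fin 2))

lemma vanishes_up {R A B : Type} [Ring R] [Algebra F R] [Ring A] [Algebra F A] [Ring B]
    [Algebra F B] (ρ1 : R →ₐ[F] A) (ρ2 : R →ₐ[F] B) (hs : Function.Surjective ρ2)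
    (hk : ∀ r, ρ1 r = 0 → ρ2 r = 0) (f : FreeAlgebra F ℕ)
    (h : Vanishes F (Polynomial (Matrix (Fin 2) (Fin 2) A)) f) :
    Vanishes F (Polynomial (Matrix (Fin 2) (Fin 2) B)) f := by
  refine vanishes_transfer (up ρ1) (up ρ2) ?_ ?_ f h
  · have : Function.Surjective (ρ2.mapMatrix (m := Fin 2)) := by
      intro M
      choose N hN using fun i j => hs (M i j)
      exact ⟨Matrix.of N, by ext i j; simp [hN]⟩
    exact Polynomial.map_surjective (ρ2.mapMatrix (m := Fin 2)).toRingHom this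
  · intro p hp
    ext k i j
    have h1 := congrArg (fun q : Polynomial (Matrix (Fin 2) (Fin 2) A) => Polynomial.coeff q k i j) hp
    simp only [up, Polynomial.coeff_mapAlgHom_apply, AlgHom.mapMatrix_apply, Matrix.map_apply,
      Polynomial.coeff_zero, Matrix.zero_apply] at h1 ⊢
    exact hk _ h1

end Pool.Agent.H805Z.Specht
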