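import Mathlib

set_option autoImplicit false

namespace Pool.Agent.H805Z.Specht

variable {F : Type} [Field F] {I : Type}
variable {A : Type} [Ring A] [Algebra F A] {E : Type} [Ring E] [Algebra F E]

/-- value of a word when each letter is replaced by `P` or `Q` -/
def ev (P Q : A) (s : I → Bool) (w : List I) : A := (w.map fun i => if s i then P else Q).prod

/-- value of a word on a family `ξ` -/
def xi (ξ : I → E) (w : List I) : E := (w.map ξ).prod

/-- the words obtained by moving one letter to the end -/
def rot : List I → List (List I)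
  | [] => []
  | a :: v => (v ++ [a]) :: (rot v).map (a :: ·)

@[simp] lemma ev_nil (P Q : A) (s : I → Bool) : ev P Q s [] = 1 := by simp [ev]
lemma ev_cons (P Q : A) (s : I → Bool) (a : I) (w : List I) :
    ev P Q s (a :: w) = (if s a then P else Q) * ev P Q s w := by simp [ev]
lemma ev_append (P Q : A) (s : I → Bool) (v w : List I) :
    ev P Q s (v ++ w) = ev P Q s v * ev P Q s w := by simp [ev]
@[simp] lemma xi_nil (ξ : I → E) : xi ξ [] = 1 := by simp [xi]
lemma xi_cons (ξ : I → E) (a : I) (w : List I) : xi ξ (a :: w) = ξ a * xi ξ w := by simp [xi]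
lemma xi_append (ξ : I → E) (v w : List I) : xi ξ (v ++ w) = xi ξ v * xi ξ w := by simp [xi]

lemma rot_perm : ∀ (v : List I), ∀ r ∈ rot v, r.Perm v
  | [], r, h => by simp [rot] at h
  | a :: v, r, h => by
    simp only [rot, List.mem_cons, List.mem_map] at h
    rcases h with rfl | ⟨r', hr', rfl⟩
    · exact List.perm_append_singleton a v
    · exact (rot_perm v r' hr').cons a

lemma delta (P Q : A) (h : P * Q - Q * P = 1) (s : I → Bool) : ∀ v : List I,
    P * ev P Q s v * Q - Q * ev P Q s v * P = ev P Q s v + ((rot v).map (ev P Q s)).sum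
  | [] => by simp [rot, h]
  | a :: v => by
    have ih := delta P Q h s v
    have hs : (((rot v).map (a :: ·)).map (ev P Q s)).sum
        = (if s a then P else Q) * ((rot v).map (ev P Q s)).sum := by
      rw [List.map_map, ← List.sum_map_mul_left]
      congr 1
    have hPQ : P * Q = Q * P + 1 := by rw [← h]; abel
    simp only [rot, List.map_cons, List.sum_cons, hs, ev_cons, ev_append, ev_nil, mul_one]
    have h2 : ((rot v).map (ev P Q s)).sum
        = P * ev P Q s v * Q - Q * ev P Q s v * P - ev P Q s v := by rw [ih]; abel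
    rw [h2]
    generalize ev P Q s v = z
    cases s a
    · simp only [Bool.false_eq_true, if_false]
      have : P * (Q * z) * Q = (Q * P + 1) * z * Q := by rw [← hPQ]; noncomm_ring
      rw [this]; noncomm_ring
    · simp only [if_true]
      have : P * (P * z * Q - Q * z * P - z) = P * (P * z) * Q - (P * Q) * z * P - P * z := by
        noncomm_ring
      rw [this, hPQ]; noncomm_ring

lemma xi_comm (ξ : I → E) (hξ : ∀ i j, ξ i * ξ j = -(ξ j * ξ i)) (a : I) : ∀ v : List I,
    xi ξ v * ξ a = ((-1 : F) ^ v.length) • (ξ a * xi ξ v)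
  | [] => by simp
  | b :: v => by
    rw [xi_cons, mul_assoc, xi_comm ξ hξ a v, List.length_cons, pow_succ, mul_smul_comm,
      ← mul_assoc, hξ b a]
    simp [mul_assoc]

lemma xi_rot (h3 : (3 : F) = 0) (ξ : I → E) (hξ : ∀ i j, ξ i * ξ j = -(ξ j * ξ i)) :
    ∀ v : List I, xi ξ v + ((rot v).map (xi ξ)).sum = ((-1 : F) ^ v.length) • xi ξ v
  | [] => by simp [rot]
  | a :: v => by
    have ih := xi_rot h3 ξ hξ v
    have hs : (((rot v).map (a :: ·)).map (xi ξ)).sum = ξ a * ((rot v).map (xi ξ)).sum := by
      rw [List.map_map, ← List.sum_map_mul_left]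
      congr 1
    simp only [rot, List.map_cons, List.sum_cons, hs, xi_cons, xi_append, xi_nil, mul_one]
    have h2 : ((rot v).map (xi ξ)).sum = ((-1 : F) ^ v.length) • xi ξ v - xi ξ v := by
      rw [← ih]; abel
    rw [h2, xi_comm (F := F) ξ hξ a v, mul_sub, mul_smul_comm, List.length_cons, pow_succ]
    have h4 : ((-1 : F) ^ v.length * -1) = (-1 : F) ^ v.length + (-1 : F) ^ v.length := by
      linear_combination (-(-1 : F) ^ v.length) * h3
    rw [h4, add_smul]
    abel

variable [DecidableEq I]

/-- contraction along a list of pairs -/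
def psi (F : Type) [Field F] (A : Type) [Ring A] [Algebra F A] :
    List (I × I) → (((I → Bool) → A) →ₗ[F] A)
  | [] => LinearMap.proj (fun _ => true)
  | p :: ps => (psi F A ps).comp
      (LinearMap.funLeft F A (fun s => Function.update (Function.update s p.1 true) p.2 false) -
        LinearMap.funLeft F A (fun s => Function.update (Function.update s p.1 false) p.2 true))

def flat (ps : List (I × I)) : List I := ps.flatMap fun p => [p.1, p.2]

lemma ev_update (P Q : A) (s : I → Bool) (i j : I) (b c : Bool) (w : List I)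
    (hi : i ∉ w) (hj : j ∉ w) :
    ev P Q (Function.update (Function.update s i b) j c) w = ev P Q s w := by
  unfold ev
  congr 1
  apply List.map_congr_left
  intro a ha
  have h1 : a ≠ i := fun h => hi (h ▸ ha)
  have h2 : a ≠ j := fun h => hj (h ▸ ha)
  simp [Function.update_of_ne h1, Function.update_of_ne h2]

omit [DecidableEq I] in
/-- the step of the induction -/
lemma step (h3 : (3 : F) = 0) (P Q : A) (h : P * Q - Q * P = 1)
    (ξ : I → E) (hξ : ∀ i j, ξ i * ξ j = -(ξ j * ξ i))
    (L : ((I → Bool) → A) →ₗ[F] A) (y : A) (l : List I)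
    (ih : ∀ w : List I, w.Perm l → ∃ c : F, L (fun s => ev P Q s w) = c • y ∧ xi ξ w = c • xi ξ l)
    (u v w : List I) (hp : (u ++ v ++ w).Perm l) (i j : I) :
    ∃ c : F, L (fun s => ev P Q s u * (P * ev P Q s v * Q - Q * ev P Q s v * P) * ev P Q s w)
        = c • y ∧
      xi ξ (u ++ i :: v ++ j :: w) = c • xi ξ (i :: j :: l) := by
  have key : ∀ R : List (List I), (∀ r ∈ R, r.Perm v) →
      ∃ c : F, L (fun s => ev P Q s u * (R.map (ev P Q s)).sum * ev P Q s w) = c • y ∧
        xi ξ u * (R.map (xi ξ)).sum * xi ξ w = c • xi ξ l := by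
    intro R
    induction R with
    | nil =>
      intro _
      refine ⟨0, ?_, by simp⟩
      simp only [List.map_nil, List.sum_nil, mul_zero, zero_mul, zero_smul]
      exact map_zero L
    | cons r R ihR =>
      intro hR
      obtain ⟨c1, h1, h1'⟩ := ihR (fun r hr => hR r (List.mem_cons_of_mem _ hr))
      obtain ⟨c2, h2, h2'⟩ := ih (u ++ r ++ w)
        (((hR r List.mem_cons_self).append_left u).append_right w |>.trans hp)
      refine ⟨c2 + c1, ?_, ?_⟩
      · rw [add_smul, ← h1, ← h2, ← map_add]
        congr 1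
        funext s
        simp only [List.map_cons, List.sum_cons, Pi.add_apply, ev_append]
        noncomm_ring
      · rw [add_smul, ← h1', ← h2']
        simp only [List.map_cons, List.sum_cons, xi_append]
        noncomm_ring
  obtain ⟨c, h1, h2⟩ := key (v :: rot v) (by
    intro r hr
    rcases List.mem_cons.1 hr with rfl | hr
    · exact List.Perm.refl _
    · exact rot_perm v r hr)
  refine ⟨c, ?_, ?_⟩
  · rw [← h1]
    congr 1
    funext s
    rw [delta P Q h s v]
    simp
  · simp only [List.map_cons, List.sum_cons] at h2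
    rw [xi_rot h3 ξ hξ v] at h2
    rw [xi_cons, xi_cons, ← mul_smul_comm, ← mul_smul_comm, ← h2]
    simp only [xi_append, xi_cons]
    have e1 := xi_comm (F := F) ξ hξ i u
    have e2 := xi_comm (F := F) ξ hξ j u
    have e3 := xi_comm (F := F) ξ hξ j v
    have hsq : ((-1 : F) ^ u.length) * ((-1 : F) ^ u.length) = 1 := by
      rw [← mul_pow]; simp
    calc xi ξ u * (ξ i * xi ξ v) * (ξ j * xi ξ w)
        = (xi ξ u * ξ i) * (xi ξ v * ξ j) * xi ξ w := by noncomm_ring
      _ = ((-1 : F) ^ u.length * (-1 : F) ^ v.length) •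
            (ξ i * (xi ξ u * ξ j) * xi ξ v * xi ξ w) := by
          rw [e1, e3]; simp only [smul_mul_assoc, mul_smul_comm, smul_smul, mul_assoc]
          rw [mul_comm ((-1 : F) ^ v.length)]
      _ = ((-1 : F) ^ v.length) • (ξ i * (ξ j * xi ξ u) * xi ξ v * xi ξ w) := by
          rw [e2]; simp only [smul_mul_assoc, mul_smul_comm, smul_smul, mul_assoc]
          congr 1
          linear_combination ((-1 : F) ^ v.length) * hsq
      _ = _ := by simp only [smul_mul_assoc, mul_smul_comm, mul_assoc]

lemma contraction (h3 : (3 : F) = 0) (P Q : A) (h : P * Q - Q * P = 1)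
    (ξ : I → E) (hξ : ∀ i j, ξ i * ξ j = -(ξ j * ξ i)) (w0 : List I) (hw0 : w0.length ≤ 1) :
    ∀ (ps : List (I × I)), (flat ps ++ w0).Nodup → ∀ w : List I, w.Perm (flat ps ++ w0) →
      ∃ c : F, psi F A ps (fun s => ev P Q s w) = c • ev P Q (fun _ => true) w0 ∧
        xi ξ w = c • xi ξ (flat ps ++ w0)
  | [], _, w, hw => by
    have : w = w0 := by
      simp only [flat, List.flatMap_nil, List.nil_append] at hw
      match w0, hw0, hw with
      | [], _, hw => exact List.perm_nil.1 hw
      | [a], _, hw => exact List.perm_singleton.1 hw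
    subst this
    exact ⟨1, by simp [psi], by simp [flat]⟩
  | (i, j) :: ps, hn, w, hw => by
    have hfl : flat ((i, j) :: ps) ++ w0 = i :: j :: (flat ps ++ w0) := by simp [flat]
    rw [hfl] at hn hw ⊢
    set l := flat ps ++ w0 with hl
    have hn' : l.Nodup := (List.nodup_cons.1 (List.nodup_cons.1 hn).2).2
    have hjl : j ∉ l := (List.nodup_cons.1 (List.nodup_cons.1 hn).2).1
    have hil : i ∉ l := fun h => (List.nodup_cons.1 hn).1 (List.mem_cons_of_mem _ h)
    have hij : i ≠ j := fun h => (List.nodup_cons.1 hn).1 (h ▸ List.mem_cons_self)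
    have ih := contraction h3 P Q h ξ hξ w0 hw0 ps hn'
    have hi : i ∈ w := hw.symm.subset List.mem_cons_self
    obtain ⟨u1, u2, rfl⟩ := List.append_of_mem hi
    have hw1 : (u1 ++ u2).Perm (j :: l) := (List.perm_middle.symm.trans hw).cons_inv
    have hj : j ∈ u1 ++ u2 := hw1.symm.subset List.mem_cons_self
    rcases List.mem_append.1 hj with hj | hj
    · obtain ⟨u, v, rfl⟩ := List.append_of_mem hj
      have hp : (u ++ v ++ u2).Perm l := by
        have : (u ++ j :: v ++ u2).Perm (j :: (u ++ v ++ u2)) := by
          rw [List.append_assoc, List.cons_append, List.append_assoc]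
          exact List.perm_middle
        exact (this.symm.trans hw1).cons_inv
      obtain ⟨c, h1, h2⟩ := step h3 P Q h ξ hξ (psi F A ps) _ l ih u v u2 hp j i
      have hi' : i ∉ u ++ v ++ u2 := fun hh => hil (hp.subset hh)
      have hj' : j ∉ u ++ v ++ u2 := fun hh => hjl (hp.subset hh)
      simp only [List.mem_append, not_or] at hi' hj'
      refine ⟨-c, ?_, ?_⟩
      · rw [neg_smul, ← h1, ← map_neg]
        simp only [psi, LinearMap.comp_apply]
        congr 1
        funext s
        simp only [LinearMap.sub_apply, Pi.sub_apply, LinearMap.funLeft_apply, ev_append, ev_cons,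
          ev_update P Q s i j _ _ u hi'.1.1 hj'.1.1, ev_update P Q s i j _ _ v hi'.1.2 hj'.1.2,
          ev_update P Q s i j _ _ u2 hi'.2 hj'.2, Function.update_self,
          Function.update_of_ne hij, Pi.neg_apply]
        simp only [Bool.false_eq_true, if_false, if_true]
        noncomm_ring
      · rw [h2, xi_cons, xi_cons, xi_cons, xi_cons, ← mul_assoc, ← mul_assoc, hξ j i]
        simp
    · obtain ⟨v, w', rfl⟩ := List.append_of_mem hj
      have hp : (u1 ++ v ++ w').Perm l := by
        have : (u1 ++ (v ++ j :: w')).Perm (j :: (u1 ++ v ++ w')) := by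
          rw [← List.append_assoc]
          exact List.perm_middle
        exact (this.symm.trans hw1).cons_inv
      obtain ⟨c, h1, h2⟩ := step h3 P Q h ξ hξ (psi F A ps) _ l ih u1 v w' hp i j
      have hi' : i ∉ u1 ++ v ++ w' := fun hh => hil (hp.subset hh)
      have hj' : j ∉ u1 ++ v ++ w' := fun hh => hjl (hp.subset hh)
      simp only [List.mem_append, not_or] at hi' hj'
      refine ⟨c, ?_, ?_⟩
      · rw [← h1]
        simp only [psi, LinearMap.comp_apply]
        congr 1
        funext s
        simp only [LinearMap.sub_apply, Pi.sub_apply, LinearMap.funLeft_apply, ev_append, ev_cons,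
          ev_update P Q s i j _ _ u1 hi'.1.1 hj'.1.1, ev_update P Q s i j _ _ v hi'.1.2 hj'.1.2,
          ev_update P Q s i j _ _ w' hi'.2 hj'.2, Function.update_self,
          Function.update_of_ne hij]
        simp only [Bool.false_eq_true, if_false, if_true]
        noncomm_ring
      · rw [← h2]
        simp [List.append_assoc]

omit [DecidableEq I] in
lemma exists_flat : ∀ l : List I, ∃ (ps : List (I × I)) (w0 : List I), w0.length ≤ 1 ∧
    l = flat ps ++ w0
  | [] => ⟨[], [], by simp, by simp [flat]⟩
  | [a] => ⟨[], [a], by simp, by simp [flat]⟩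
  | a :: b :: l => by
    obtain ⟨ps, w0, h1, h2⟩ := exists_flat l
    exact ⟨(a, b) :: ps, w0, h1, by simp [flat, h2]⟩

/-- A linear relation between rearrangements of a word without repeated letters that holds for
all substitutions from `{P, Q}` holds for anticommuting elements. -/
lemma relation (h3 : (3 : F) = 0) (P Q : A) (h : P * Q - Q * P = 1) [Nontrivial A]
    (ξ : I → E) (hξ : ∀ i j, ξ i * ξ j = -(ξ j * ξ i)) (l : List I) (hl : l.Nodup)
    {T : Type} (S : Finset T) (c : T → F) (w : T → List I) (hw : ∀ t ∈ S, (w t).Perm l)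
    (hrel : ∀ s, ∑ t ∈ S, c t • ev P Q s (w t) = 0) :
    ∑ t ∈ S, c t • xi ξ (w t) = 0 := by
  obtain ⟨ps, w0, h0, rfl⟩ := exists_flat l
  have key := contraction h3 P Q h ξ hξ w0 h0 ps hl
  choose! d hd1 hd2 using key
  have hy : ev P Q (fun _ => true) w0 ≠ 0 := by
    match w0, h0 with
    | [], _ => simp
    | [a], _ =>
      simp only [ev_cons, ev_nil, if_true, mul_one]
      intro hP
      rw [hP] at h
      simp at h
  have h1 : (∑ t ∈ S, c t * d (w t)) • ev P Q (fun _ => true) w0 = 0 := by
    rw [Finset.sum_smul]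
    have : (∑ t ∈ S, c t • (fun s => ev P Q s (w t))) = 0 := by
      funext s
      simpa [Finset.sum_apply] using hrel s
    have h2 := congrArg (psi F A ps) this
    rw [map_sum, map_zero] at h2
    rw [← h2]
    apply Finset.sum_congr rfl
    intro t ht
    rw [map_smul, hd1 _ (hw t ht), smul_smul]
  have h2 : ∑ t ∈ S, c t * d (w t) = 0 := by
    rcases smul_eq_zero.1 h1 with h | h
    · exact h
    · exact absurd h hy
  calc ∑ t ∈ S, c t • xi ξ (w t) = ∑ t ∈ S, (c t * d (w t)) • xi ξ (flat ps ++ w0) := by
        apply Finset.sum_congr rfl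
        intro t ht
        rw [hd2 _ (hw t ht), smul_smul]
    _ = 0 := by rw [← Finset.sum_smul, h2, zero_smul]

omit [DecidableEq I] in
lemma xi_eq_zero (h2 : (2 : F) ≠ 0) (ξ : I → E) (hξ : ∀ i j, ξ i * ξ j = -(ξ j * ξ i)) :
    ∀ w : List I, ¬ w.Nodup → xi ξ w = 0
  | [], h => by simp at h
  | a :: w, h => by
    rw [xi_cons]
    by_cases hw : w.Nodup
    · have ha : a ∈ w := by
        by_contra ha
        exact h (List.nodup_cons.2 ⟨ha, hw⟩)
      obtain ⟨u, v, rfl⟩ := List.append_of_mem ha
      have hsq : ξ a * ξ a = 0 := by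
        have h1 : (2 : F) • (ξ a * ξ a) = 0 := by
          rw [two_smul]
          nth_rewrite 1 [hξ a a]
          abel
        rcases smul_eq_zero.1 h1 with h | h
        · exact absurd h h2
        · exact h
      rw [xi_append, xi_cons, ← mul_assoc (xi ξ u), xi_comm (F := F) ξ hξ a u]
      simp only [smul_mul_assoc, mul_smul_comm, ← mul_assoc, hsq]
      simp
    · rw [xi_eq_zero h2 ξ hξ w hw, mul_zero]

end Pool.Agent.H805Z.Specht
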