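import Mathlib
import Pool.Agent.H805Z.Specht.Weyl
import Pool.Agent.H805Z.Specht.Sat
import Pool.Agent.H805Z.Specht.Omega

set_option autoImplicit false

namespace Pool.Agent.H805Z.Specht

open ExteriorAlgebra

variable {F : Type} [Field F] {Γ : Type} [AddCommGroup Γ]

/-- the derivation on `F[t]/(t³)` -/
def PP (F : Type) [Field F] : Matrix (Fin 3) (Fin 3) F := !![0, 1, 0; 0, 0, 2; 0, 0, 0]
/-- multiplication by `t` on `F[t]/(t³)` -/
def QQ (F : Type) [Field F] : Matrix (Fin 3) (Fin 3) F := !![0, 0, 0; 1, 0, 0; 0, 1, 0]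

lemma PP_QQ (h3 : (3 : F) = 0) : PP F * QQ F - QQ F * PP F = 1 := by
  ext i j
  fin_cases i <;> fin_cases j <;> simp [PP, QQ]
  · norm_num
  · linear_combination -h3

/-- the commutative coefficient ring -/
abbrev CC (F : Type) [Field F] (Γ : Type) [AddCommGroup Γ] (N : ℕ) :=
  (Fin N → Bool) → AddMonoidAlgebra F (Γ × Multiset (Fin N))

/-- generators of the exterior algebra -/
noncomputable def gen (F : Type) [Field F] (N : ℕ) (i : Fin N) : ExteriorAlgebra F (Fin N → F) :=
  ι F (Pi.single i 1)

lemma gen_anti (N : ℕ) (i j : Fin N) : gen F N i * gen F N j = -(gen F N j * gen F N i) :=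
  iota_anti _ _

/-- the matrix model -/
noncomputable def m1 (F : Type) [Field F] (Γ : Type) [AddCommGroup Γ] (N : ℕ) :
    Multiplicative Γ × FreeMonoid (Fin N) →* Matrix (Fin 3) (Fin 3) (CC F Γ N) where
  toFun p := Matrix.of fun a b s => AddMonoidAlgebra.single
    (p.1.toAdd, (p.2.toList : Multiset (Fin N))) (ev (PP F) (QQ F) s p.2.toList a b)
  map_one' := by
    ext1 a b
    funext s
    by_cases h : a = b
    · subst h
      simp [AddMonoidAlgebra.one_def, Prod.mk_zero_zero]
    · simp [Matrix.one_apply_ne h]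
  map_mul' p q := by
    ext1 a b
    funext s
    simp only [Matrix.mul_apply, Matrix.of_apply, Finset.sum_apply, Pi.mul_apply,
      AddMonoidAlgebra.single_mul_single, Prod.fst_mul, Prod.snd_mul, toAdd_mul,
      FreeMonoid.toList_mul, ev_append, Prod.mk_add_mk, Multiset.coe_add]
    exact map_sum (AddMonoidAlgebra.singleAddHom _) _ _

/-- the model in forms -/
noncomputable def m2 (F : Type) [Field F] (Γ : Type) [AddCommGroup Γ] (N : ℕ) :
    Multiplicative Γ × FreeMonoid (Fin N) →* Om F (Fin N → F) Γ where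
  toFun p := AddMonoidAlgebra.single p.1.toAdd (xi (gen F N) p.2.toList)
  map_one' := by simp [AddMonoidAlgebra.one_def]
  map_mul' p q := by simp [AddMonoidAlgebra.single_mul_single, xi_append]

lemma m2_surj (N : ℕ) :
    Function.Surjective (MonoidAlgebra.lift F _ _ (m2 F Γ N)) := by
  have key : ∀ x : Om F (Fin N → F) Γ, x ∈ (MonoidAlgebra.lift F _ _ (m2 F Γ N)).range := by
    intro x
    have h0 : ∀ e : ExteriorAlgebra F (Fin N → F), (AddMonoidAlgebra.single 0 e : Om F _ Γ)
        ∈ (MonoidAlgebra.lift F _ _ (m2 F Γ N)).range := by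
      intro e
      induction e using ExteriorAlgebra.induction with
      | algebraMap r => exact Subalgebra.algebraMap_mem _ r
      | ι m =>
        have hm : m = ∑ i, m i • (Pi.single i 1 : Fin N → F) := by
          ext j; simp [Finset.sum_apply, Pi.single_apply]
        have : (AddMonoidAlgebra.single 0 (ι F m) : Om F _ Γ)
            = ∑ i, m i • AddMonoidAlgebra.single 0 (gen F N i) := by
          nth_rewrite 1 [hm]
          rw [map_sum, ← AddMonoidAlgebra.lsingle_apply (R := F), map_sum]
          simp [gen]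
        rw [this]
        refine Subalgebra.sum_mem _ fun i _ => Subalgebra.smul_mem _ ?_ _
        refine ⟨MonoidAlgebra.single (1, FreeMonoid.of i) 1, ?_⟩
        simp [m2, xi]
      | mul a b ha hb =>
        have := Subalgebra.mul_mem _ ha hb
        rwa [AddMonoidAlgebra.single_mul_single, add_zero] at this
      | add a b ha hb =>
        rw [AddMonoidAlgebra.single_add]
        exact Subalgebra.add_mem _ ha hb
    induction x using AddMonoidAlgebra.induction_linear with
    | zero => exact Subalgebra.zero_mem _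
    | add x y hx hy => exact Subalgebra.add_mem _ hx hy
    | single γ e =>
      have h1 : (AddMonoidAlgebra.single γ 1 : Om F (Fin N → F) Γ)
          ∈ (MonoidAlgebra.lift F _ _ (m2 F Γ N)).range :=
        ⟨MonoidAlgebra.single (Multiplicative.ofAdd γ, 1) 1, by simp [m2]⟩
      have := Subalgebra.mul_mem _ h1 (h0 e)
      rwa [AddMonoidAlgebra.single_mul_single, add_zero, one_mul] at this
  intro x
  exact key x

lemma kernel_le (h3 : (3 : F) = 0) (N : ℕ)
    (r : MonoidAlgebra F (Multiplicative Γ × FreeMonoid (Fin N)))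
    (hr : MonoidAlgebra.lift F _ _ (m1 F Γ N) r = 0) :
    MonoidAlgebra.lift F _ _ (m2 F Γ N) r = 0 := by
  classical
  rw [MonoidAlgebra.lift_apply, Finsupp.sum] at hr ⊢
  let κ : Multiplicative Γ × FreeMonoid (Fin N) → Γ × Multiset (Fin N) :=
    fun p => (p.1.toAdd, (p.2.toList : Multiset (Fin N)))
  rw [← Finset.sum_fiberwise_of_maps_to (t := r.coeff.support.image κ) (g := κ)
    (fun p hp => Finset.mem_image_of_mem κ hp)]
  apply Finset.sum_eq_zero
  intro k hk
  obtain ⟨p0, _, hp0⟩ := Finset.mem_image.1 hk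
  have hperm : ∀ p ∈ r.coeff.support.filter (fun p => κ p = k), p.2.toList.Perm p0.2.toList := by
    intro p hp
    have h1 := (Finset.mem_filter.1 hp).2
    rw [← hp0] at h1
    exact Multiset.coe_eq_coe.1 (congrArg Prod.snd h1)
  have hsum : ∑ p ∈ r.coeff.support.filter (fun p => κ p = k),
      r.coeff p • xi (gen F N) p.2.toList = 0 := by
    by_cases hnd : p0.2.toList.Nodup
    · refine relation h3 (PP F) (QQ F) (PP_QQ h3) (gen F N) (gen_anti N) p0.2.toList hnd _
        (fun p => r.coeff p) (fun p => p.2.toList) hperm ?_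
      intro s
      ext a b
      have h1 := congrArg (fun M : Matrix (Fin 3) (Fin 3) (CC F Γ N) => (M a b s).coeff k) hr
      simp only [Matrix.sum_apply, Matrix.smul_apply, Finset.sum_apply, Pi.smul_apply,
        AddMonoidAlgebra.coeff_sum, AddMonoidAlgebra.coeff_smul, Finsupp.coe_finsetSum,
        Finsupp.coe_smul, Matrix.zero_apply, Pi.zero_apply, AddMonoidAlgebra.coeff_zero,
        Finsupp.coe_zero] at h1
      rw [Matrix.sum_apply, Finset.sum_filter, Matrix.zero_apply]
      refine Eq.trans ?_ h1
      apply Finset.sum_congr rfl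
      intro p _
      simp only [m1, MonoidHom.coe_mk, OneHom.coe_mk, Matrix.of_apply,
        AddMonoidAlgebra.coeff_single, Finsupp.single_apply, Matrix.smul_apply]
      by_cases hp : κ p = k
      · rw [if_pos hp, if_pos hp]
      · rw [if_neg hp, if_neg hp, smul_zero]
    · apply Finset.sum_eq_zero
      intro p hp
      rw [xi_eq_zero (two_ne h3) (gen F N) (gen_anti N) _
        (fun h => hnd ((hperm p hp).nodup_iff.1 h)), smul_zero]
  have : ∑ p ∈ r.coeff.support.filter (fun p => κ p = k), r.coeff p • m2 F Γ N p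
      = AddMonoidAlgebra.lsingle (R := F) k.1 (∑ p ∈ r.coeff.support.filter (fun p => κ p = k),
        r.coeff p • xi (gen F N) p.2.toList) := by
    rw [map_sum]
    apply Finset.sum_congr rfl
    intro p hp
    have h1 := (Finset.mem_filter.1 hp).2
    rw [map_smul, ← h1]
    rfl
  rw [this, hsum, map_zero]

theorem vanishes_om [Infinite F] (h3 : (3 : F) = 0) (N : ℕ) (f : FreeAlgebra F ℕ)
    (h : Vanishes F (Matrix (Fin 6) (Fin 6) F) f) :
    Vanishes F (Polynomial (Matrix (Fin 2) (Fin 2) (Om F (Fin N → F) Γ))) f :=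
  vanishes_up (MonoidAlgebra.lift F _ _ (m1 F Γ N)) (MonoidAlgebra.lift F _ _ (m2 F Γ N))
    (m2_surj N) (kernel_le h3 N) f (vanishes_poly (CC F Γ N) f h)

end Pool.Agent.H805Z.Specht
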