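import Mathlib
import Pool.Agent.H805Z.Specht.Kernel

set_option autoImplicit false

namespace Pool.Agent.H805Z.Specht

open ExteriorAlgebra

/-- `[[x₀, x₁], x₁]` -/
def uu {R : Type} [Ring R] (x : ℕ → R) : R :=
  (x 0 * x 1 - x 1 * x 0) * x 1 - x 1 * (x 0 * x 1 - x 1 * x 0)

/-- product of `j` factors `ww` in different variables -/
def WW {R : Type} [Ring R] (x : ℕ → R) (j : ℕ) : R :=
  ((List.range j).map fun t => ww (x (2 * t + 2)) (x (2 * t + 3))).prod

/-- the identities of the chain -/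
def ff {R : Type} [Ring R] (x : ℕ → R) (j : ℕ) : R := uu x * WW x j * uu x ^ 5

section
variable {R S G : Type} [Ring R] [Ring S] [FunLike G R S] [RingHomClass G R S]

lemma map_uu (g : G) (x : ℕ → R) : g (uu x) = uu (fun i => g (x i)) := by simp [uu]

lemma map_WW (g : G) (x : ℕ → R) (j : ℕ) : g (WW x j) = WW (fun i => g (x i)) j := by
  simp only [WW, map_list_prod, List.map_map]
  congr 1
  apply List.map_congr_left
  intro t _
  simp [ww]

lemma map_ff (g : G) (x : ℕ → R) (j : ℕ) : g (ff x j) = ff (fun i => g (x i)) j := by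
  simp only [ff, map_mul, map_pow, map_uu, map_WW]

lemma WW_succ (x : ℕ → R) (j : ℕ) :
    WW x (j + 1) = WW x j * ww (x (2 * j + 2)) (x (2 * j + 3)) := by
  simp [WW, List.range_succ]
end

variable {F : Type} [Field F] {M : Type} [AddCommGroup M] [Module F M]
variable {Γ : Type} [AddCommGroup Γ]

/-- ambient algebra -/
abbrev PM (F : Type) [Field F] (M : Type) [AddCommGroup M] [Module F M] (Γ : Type)
    [AddCommGroup Γ] := Polynomial (Matrix (Fin 2) (Fin 2) (Om F M Γ))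

/-- the test algebra -/
noncomputable def BB (θ : Γ →+ M) : Subalgebra F (PM F M Γ) where
  carrier := {X | ∃ (l : F) (g a b : Om F M Γ), g ∈ GG θ ∧ a ∈ GG θ ∧ b ∈ GG θ ∧
    X.coeff 0 = Matrix.diagonal ![algebraMap F _ l, g] ∧ X.coeff 1 = !![0, a; b, 0]}
  mul_mem' := by
    rintro X Y ⟨l, g, a, b, hg, ha, hb, h0, h1⟩ ⟨l', g', a', b', hg', ha', hb', h0', h1'⟩
    refine ⟨l * l', g * g', algebraMap F _ l * a' + a * g', g * b' + b * algebraMap F _ l',
      mul_mem hg hg', add_mem (mul_mem (Subalgebra.algebraMap_mem _ _) ha') (mul_mem ha hg'),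
      add_mem (mul_mem hg hb') (mul_mem hb (Subalgebra.algebraMap_mem _ _)), ?_, ?_⟩
    · rw [Polynomial.mul_coeff_zero, h0, h0', Matrix.diagonal_mul_diagonal]
      congr 1
      funext i
      fin_cases i <;> simp
    · rw [Polynomial.mul_coeff_one, h0, h0', h1, h1']
      ext1 i j
      fin_cases i <;> fin_cases j <;> simp [Matrix.mul_apply, Matrix.vecMul_diagonal]
  add_mem' := by
    rintro X Y ⟨l, g, a, b, hg, ha, hb, h0, h1⟩ ⟨l', g', a', b', hg', ha', hb', h0', h1'⟩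
    refine ⟨l + l', g + g', a + a', b + b', add_mem hg hg', add_mem ha ha', add_mem hb hb', ?_, ?_⟩
    · rw [Polynomial.coeff_add, h0, h0', Matrix.diagonal_add]
      congr 1
      funext i
      fin_cases i <;> simp
    · rw [Polynomial.coeff_add, h1, h1']
      ext1 i j
      fin_cases i <;> fin_cases j <;> simp
  algebraMap_mem' r := by
    refine ⟨r, algebraMap F _ r, 0, 0, Subalgebra.algebraMap_mem _ _, zero_mem _, zero_mem _,
      ?_, ?_⟩
    · rw [Polynomial.algebraMap_apply, Polynomial.coeff_C_zero, Matrix.algebraMap_eq_diagonal]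
      congr 1
      funext i
      fin_cases i <;> simp
    · rw [Polynomial.algebraMap_apply, Polynomial.coeff_C_succ]
      ext1 i j
      fin_cases i <;> fin_cases j <;> simp

/-- the ideal of the test algebra -/
def JJ (φ : Om F M Γ →ₗ[F] F) : Set (PM F M Γ) :=
  {X | ∃ Y : PM F M Γ, X = Polynomial.X ^ 6 * Y ∧ φ (Y.coeff 0 0 0) = 0}

lemma JJ_zero (φ : Om F M Γ →ₗ[F] F) : (0 : PM F M Γ) ∈ JJ φ := ⟨0, by simp, by simp⟩

lemma JJ_add (φ : Om F M Γ →ₗ[F] F) {X Y : PM F M Γ} (hX : X ∈ JJ φ) (hY : Y ∈ JJ φ) :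
    X + Y ∈ JJ φ := by
  obtain ⟨X', rfl, h1⟩ := hX
  obtain ⟨Y', rfl, h2⟩ := hY
  exact ⟨X' + Y', by rw [mul_add], by simp [h1, h2]⟩

lemma JJ_neg (φ : Om F M Γ →ₗ[F] F) {X : PM F M Γ} (hX : X ∈ JJ φ) : -X ∈ JJ φ := by
  obtain ⟨X', rfl, h1⟩ := hX
  exact ⟨-X', neg_mul_eq_mul_neg (Polynomial.X ^ 6 : PM F M Γ) X', by simp [h1]⟩

lemma JJ_left (θ : Γ →+ M) (φ : Om F M Γ →ₗ[F] F) {B X : PM F M Γ} (hB : B ∈ BB θ)
    (hX : X ∈ JJ φ) : B * X ∈ JJ φ := by
  obtain ⟨X', rfl, h1⟩ := hX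
  obtain ⟨l, g, a, b, -, -, -, h0, -⟩ := hB
  refine ⟨B * X', ?_, ?_⟩
  · rw [← mul_assoc, ← mul_assoc, Polynomial.X_pow_mul]
  · rw [Polynomial.mul_coeff_zero, h0, Matrix.diagonal_mul]
    simp only [Matrix.cons_val_zero]
    rw [← Algebra.smul_def, map_smul, h1, smul_zero]

lemma JJ_right (θ : Γ →+ M) (φ : Om F M Γ →ₗ[F] F) {B X : PM F M Γ} (hB : B ∈ BB θ)
    (hX : X ∈ JJ φ) : X * B ∈ JJ φ := by
  obtain ⟨X', rfl, h1⟩ := hX
  obtain ⟨l, g, a, b, -, -, -, h0, -⟩ := hB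
  refine ⟨X' * B, ?_, ?_⟩
  · rw [mul_assoc]
  · rw [Polynomial.mul_coeff_zero, h0, Matrix.mul_diagonal]
    simp only [Matrix.cons_val_zero]
    rw [← Algebra.commutes, ← Algebra.smul_def, map_smul, h1, smul_zero]

lemma JJ_iff (φ : Om F M Γ →ₗ[F] F) (Y : PM F M Γ) :
    Polynomial.X ^ 6 * Y ∈ JJ φ ↔ φ (Y.coeff 0 0 0) = 0 := by
  constructor
  · rintro ⟨Y', h, h1⟩
    have h2 := congrArg (fun p : PM F M Γ => p.coeff (0 + 6)) h
    simp only [Polynomial.coeff_X_pow_mul] at h2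
    rw [h2, h1]
  · intro h
    exact ⟨Y, rfl, h⟩

lemma WW_mem (h3 : (3 : F) = 0) (hΓ : ∀ γ : Γ, γ + γ + γ = 0) (θ : Γ →+ M) (g : ℕ → Om F M Γ)
    (hg : ∀ i, g i ∈ GG θ) (j : ℕ) : WW g j ∈ TT θ (2 * j) ∧ sg (WW g j) = WW g j := by
  induction j with
  | zero =>
    refine ⟨?_, by simp [WW]⟩
    rw [mem_TT]
    refine ⟨0, 1, ?_, by simp [WW, AddMonoidAlgebra.one_def]⟩
    rw [exteriorPower, mul_zero, pow_zero]
    exact Submodule.mem_one.2 ⟨1, map_one _⟩
  | succ j ih =>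
    have h := GG_ww h3 hΓ θ _ _ (hg (2 * j + 2)) (hg (2 * j + 3))
    rw [WW_succ, map_mul, ih.2, h.2]
    exact ⟨TT_mul θ (2 * j) 2 _ _ ih.1 h.1, rfl⟩

/-- the value of `ff` on the test algebra -/
lemma ff_value (θ : Γ →+ M) (x : ℕ → PM F M Γ) (l : ℕ → F)
    (g : ℕ → Om F M Γ) (hg : ∀ i, g i ∈ GG θ)
    (h0 : ∀ i, (x i).coeff 0 = Matrix.diagonal ![algebraMap F _ (l i), g i])
    (a b : Om F M Γ) (h1 : (uu x).coeff 1 = !![0, a; b, 0]) (j : ℕ) :
    ∃ Y : PM F M Γ, ff x j = Polynomial.X ^ 6 * Y ∧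
      Y.coeff 0 0 0 = a * WW g j * (b * (a * b) * (a * b)) := by
  let v : ℕ → Fin 2 → Om F M Γ := fun i => ![algebraMap F _ (l i), g i]
  have hv : (fun i => Polynomial.constantCoeff (x i))
      = fun i => Matrix.diagonalRingHom (Fin 2) (Om F M Γ) (v i) := by
    funext i
    rw [Polynomial.constantCoeff_apply, h0]
    rfl
  have hu0 : (uu x).coeff 0 = 0 := by
    rw [← Polynomial.constantCoeff_apply, map_uu, hv, ← map_uu]
    have : uu v = 0 := by
      funext i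
      fin_cases i
      · simp [uu, v, ← map_mul, mul_comm (l 0) (l 1)]
      · have := om_even_comm _ (GG_comm_even θ _ _ (hg 0) (hg 1)) (g 1)
        simp [uu, v, this]
    rw [this, map_zero]
  obtain ⟨u', hu'⟩ := Polynomial.X_dvd_iff.2 hu0
  have hu1 : u'.coeff 0 = !![0, a; b, 0] := by
    rw [← h1, hu', Polynomial.coeff_X_mul]
  have hW : (WW x j).coeff 0 = Matrix.diagonal (WW v j) := by
    rw [← Polynomial.constantCoeff_apply, map_WW, hv, ← map_WW]
    rfl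
  have hW1 : WW v j 1 = WW g j := by
    have := map_WW (Pi.evalRingHom (fun _ : Fin 2 => Om F M Γ) 1) v j
    simpa [v] using this
  refine ⟨u' * WW x j * u' ^ 5, ?_, ?_⟩
  · rw [ff, hu', (Polynomial.commute_X u').mul_pow]
    have : WW x j * (Polynomial.X ^ 5 * u' ^ 5) = Polynomial.X ^ 5 * (WW x j * u' ^ 5) := by
      rw [← mul_assoc, ← Polynomial.X_pow_mul, mul_assoc]
    have h2 : ∀ z : PM F M Γ, u' * (Polynomial.X ^ 5 * z) = Polynomial.X ^ 5 * (u' * z) := by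
      intro z
      rw [← mul_assoc, ← Polynomial.X_pow_mul, mul_assoc]
    rw [mul_assoc, this, mul_assoc, h2, ← mul_assoc, ← pow_succ', mul_assoc]
  · rw [← Polynomial.constantCoeff_apply, map_mul, map_mul, map_pow,
      Polynomial.constantCoeff_apply, Polynomial.constantCoeff_apply, hu1, hW, ← hW1]
    simp [pow_succ, Matrix.mul_apply, Fin.sum_univ_two, Matrix.vecMul_diagonal, mul_assoc]

lemma ff_mem (h3 : (3 : F) = 0) (hΓ : ∀ γ : Γ, γ + γ + γ = 0) (θ : Γ →+ M)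
    (φ : Om F M Γ →ₗ[F] F) (j : ℕ) (hφ : ∀ y ∈ TT θ (2 * j), φ y = 0)
    (x : ℕ → PM F M Γ) (hx : ∀ i, x i ∈ BB θ) : ff x j ∈ JJ φ := by
  have hu : uu x ∈ BB θ := by
    unfold uu
    have := hx 0
    have := hx 1
    aesop
  obtain ⟨-, -, a, b, -, ha, hb, -, h1⟩ := hu
  choose l g a' b' hg _ _ h0 _ using hx
  obtain ⟨Y, hY, hY0⟩ := ff_value θ x l g hg h0 a b h1 j
  rw [hY, JJ_iff, hY0]
  apply hφ
  have hW := WW_mem h3 hΓ θ g hg j
  have : a * WW g j * (b * (a * b) * (a * b)) = WW g j * ((a * b) * (a * b) * (a * b)) := by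
    rw [← om_even_comm _ hW.2 a]
    simp only [mul_assoc]
  rw [this]
  exact TT_mul θ (2 * j) 0 _ _ hW.1 (GG_cube h3 hΓ θ _ (mul_mem ha hb))

end Pool.Agent.H805Z.Specht
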