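import Mathlib
import Pool.Agent.H805Z.Specht.Chain

set_option autoImplicit false

namespace Pool.Agent.H805Z.Specht

open ExteriorAlgebra

variable {F : Type} [Field F]

/-- the exponent group -/
abbrev Gm (N : ℕ) := Fin N → ZMod 3

lemma Gm_three (N : ℕ) (γ : Gm N) : γ + γ + γ = 0 := by
  funext i
  simp only [Pi.add_apply, Pi.zero_apply]
  generalize γ i = z
  revert z
  decide

/-- logarithmic differential -/
def th (F : Type) [Field F] [CharP F 3] (N : ℕ) : Gm N →+ (Fin N → F) where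
  toFun γ := fun i => ZMod.castHom (dvd_refl 3) F (γ i)
  map_zero' := by funext i; simp
  map_add' a b := by funext i; simp only [Pi.add_apply, map_add]

/-- top coefficient -/
noncomputable def ber (F : Type) [Field F] (N : ℕ) : ExteriorAlgebra F (Fin N → F) →ₗ[F] F :=
  liftAlternating (Pi.single (M := fun i => (Fin N → F) [⋀^Fin i]→ₗ[F] F) N
    (Pi.basisFun F (Fin N)).det)

lemma ber_low (N j : ℕ) (hj : j ≠ N) (e : ExteriorAlgebra F (Fin N → F))
    (he : e ∈ ⋀[F]^j (Fin N → F)) : ber F N e = 0 := by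
  rw [← ιMulti_span_fixedDegree] at he
  induction he using Submodule.span_induction with
  | mem x hx =>
    obtain ⟨v, rfl⟩ := hx
    rw [ber, liftAlternating_apply_ιMulti, Pi.single_eq_of_ne hj]
    rfl
  | zero => simp
  | add x y _ _ hx hy => rw [map_add, hx, hy, add_zero]
  | smul a x _ hx => rw [map_smul, hx, smul_zero]

lemma ber_top (N : ℕ) : ber F N (List.ofFn (gen F N)).prod = 1 := by
  have : (List.ofFn (gen F N)).prod = ιMulti F N (Pi.basisFun F (Fin N)) := by
    rw [ιMulti_apply]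
    congr 2
    funext i
    simp [gen]
  rw [this, ber, liftAlternating_apply_ιMulti, Pi.single_eq_same, Module.Basis.det_self]

/-- the residue functional -/
noncomputable def res (F : Type) [Field F] (N : ℕ) : Om F (Fin N → F) (Gm N) →ₗ[F] F :=
  (ber F N).comp ((Finsupp.lapply 0).comp (AddMonoidAlgebra.coeffLinearEquiv F).toLinearMap)

lemma res_apply (N : ℕ) (a : Om F (Fin N → F) (Gm N)) : res F N a = ber F N (a.coeff 0) := rfl

lemma res_dd [CharP F 3] (N : ℕ) (a : Om F (Fin N → F) (Gm N)) :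
    res F N (dd (th F N) a) = 0 := by
  induction a using AddMonoidAlgebra.induction_linear with
  | zero => simp
  | add x y hx hy => simp only [map_add, hx, hy, add_zero]
  | single m r =>
    rw [dd_single, res_apply, AddMonoidAlgebra.coeff_single]
    by_cases hm : m = 0
    · subst hm; simp
    · rw [Finsupp.single_eq_of_ne (Ne.symm hm), map_zero]

lemma res_TT [CharP F 3] (N j : ℕ) (hj : j ≠ N) (y : Om F (Fin N → F) (Gm N))
    (hy : y ∈ TT (th F N) j) : res F N y = 0 := by
  rw [mem_TT] at hy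
  obtain ⟨a, e, he, rfl⟩ := hy
  rw [map_add, res_dd, zero_add, res_apply, AddMonoidAlgebra.coeff_single, Finsupp.single_eq_same]
  exact ber_low N j hj e he

lemma three_eq [CharP F 3] : (3 : F) = 0 := by
  simpa using CharP.cast_eq_zero F 3

/-- exponents of the generators -/
def vv (N n : ℕ) : Gm N := if h : n < N then Pi.single ⟨n, h⟩ 1 else 0

/-- diagonal entries of the witnesses -/
noncomputable def gw (F : Type) [Field F] [CharP F 3] (N : ℕ) : ℕ → Om F (Fin N → F) (Gm N)
  | 0 => 0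
  | 1 => 1
  | n + 2 => AddMonoidAlgebra.single (vv N n) 1 + dd (th F N) (AddMonoidAlgebra.single (vv N n) 1)

lemma gw_mem [CharP F 3] (N : ℕ) : ∀ i, gw F N i ∈ GG (th F N)
  | 0 => zero_mem _
  | 1 => one_mem _
  | _ + 2 => gen_mem _ _

lemma WW_gw [CharP F 3] (N j : ℕ) : WW (gw F N) j = (2 : F) ^ j • AddMonoidAlgebra.single 0
    ((List.range (2 * j)).map fun n => ι F (th F N (vv N n))).prod := by
  induction j with
  | zero => simp [WW, AddMonoidAlgebra.one_def]
  | succ j ih =>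
    rw [WW_succ, ih]
    have h := ww_gen (F := F) three_eq (Gm_three N) (th F N) (vv N (2 * j)) (vv N (2 * j + 1))
    have h1 : ww (gw F N (2 * j + 2)) (gw F N (2 * j + 3)) = _ := h
    rw [h1, show 2 * (j + 1) = 2 * j + 1 + 1 by ring, List.range_succ, List.range_succ]
    simp only [List.map_append, List.prod_append, List.map_cons, List.map_nil, List.prod_cons,
      List.prod_nil, mul_one, smul_mul_assoc, mul_smul_comm, smul_smul,
      AddMonoidAlgebra.single_mul_single, add_zero, mul_assoc, pow_succ]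
    rw [mul_comm]

lemma res_WW [CharP F 3] (k : ℕ) : res F (2 * k) (WW (gw F (2 * k)) k) = 2 ^ k := by
  rw [WW_gw, map_smul, res_apply, AddMonoidAlgebra.coeff_single, Finsupp.single_eq_same]
  have : ((List.range (2 * k)).map fun n => ι F (th F (2 * k) (vv (2 * k) n)))
      = List.ofFn (gen F (2 * k)) := by
    apply List.ext_getElem
    · simp
    · intro n h1 h2
      have hn : n < 2 * k := by simpa using h1
      simp only [List.getElem_map, List.getElem_range, List.getElem_ofFn, vv, dif_pos hn, gen]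
      congr 1
      funext i
      simp only [th, AddMonoidHom.coe_mk, ZeroHom.coe_mk, Pi.single_apply]
      split_ifs <;> simp
  rw [this, ber_top, smul_eq_mul, mul_one]

/-- the witnesses -/
noncomputable def xw (F : Type) [Field F] [CharP F 3] (N : ℕ) (i : ℕ) :
    PM F (Fin N → F) (Gm N) :=
  Polynomial.C (Matrix.diagonal ![0, gw F N i]) +
    (if i = 0 then Polynomial.X * Polynomial.C !![0, 1; 1, 0] else 0)

lemma xw_zero [CharP F 3] (N i : ℕ) :
    (xw F N i).coeff 0 = Matrix.diagonal ![algebraMap F _ 0, gw F N i] := by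
  unfold xw
  split_ifs <;> simp

lemma xw_one [CharP F 3] (N i : ℕ) :
    (xw F N i).coeff 1 = if i = 0 then !![0, 1; 1, 0] else 0 := by
  unfold xw
  split_ifs
  · rw [Polynomial.coeff_add, Polynomial.coeff_C_succ, Polynomial.coeff_X_mul]; simp
  · simp [Polynomial.coeff_C_succ]

lemma xw_mem [CharP F 3] (N i : ℕ) : xw F N i ∈ BB (th F N) := by
  by_cases h : i = 0
  · exact ⟨0, _, 1, 1, gw_mem N i, one_mem _, one_mem _, xw_zero N i, by rw [xw_one, if_pos h]⟩
  · refine ⟨0, _, 0, 0, gw_mem N i, zero_mem _, zero_mem _, xw_zero N i, ?_⟩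
    rw [xw_one, if_neg h]
    ext1 i j
    fin_cases i <;> fin_cases j <;> simp

lemma uu_xw [CharP F 3] (N : ℕ) : (uu (xw F N)).coeff 1 = !![0, 1; 1, 0] := by
  simp only [uu, Polynomial.coeff_sub, Polynomial.mul_coeff_one, Polynomial.mul_coeff_zero,
    xw_zero, xw_one, gw]
  ext1 i j
  fin_cases i <;> fin_cases j <;>
    simp [Matrix.mul_apply, Matrix.diagonal_apply, Matrix.vecMul_diagonal]

lemma ff_not_mem [CharP F 3] (k : ℕ) : ff (xw F (2 * k)) k ∉ JJ (res F (2 * k)) := by
  obtain ⟨Y, hY, hY0⟩ := ff_value (th F (2 * k)) (xw F (2 * k)) (fun _ => 0) (gw F (2 * k))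
    (gw_mem _) (xw_zero _) 1 1 (uu_xw _) k
  rw [hY, JJ_iff, hY0]
  simp only [mul_one, one_mul, res_WW]
  exact pow_ne_zero _ (two_ne three_eq)

lemma lift_mem {A : Type} [Ring A] [Algebra F A] (B : Subalgebra F A) (φ : ℕ → A)
    (hφ : ∀ i, φ i ∈ B) (f : FreeAlgebra F ℕ) : FreeAlgebra.lift F φ f ∈ B := by
  induction f using FreeAlgebra.induction with
  | grade0 r => rw [AlgHom.commutes]; exact B.algebraMap_mem r
  | grade1 x => simpa using hφ x
  | mul a b ha hb => rw [map_mul]; exact mul_mem ha hb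
  | add a b ha hb => rw [map_add]; exact add_mem ha hb

/-- polynomials whose values on the `k`-th test algebra lie in its ideal -/
def IS (F : Type) [Field F] [CharP F 3] (k : ℕ) : Set (FreeAlgebra F ℕ) :=
  {f | ∀ φ : ℕ → PM F (Fin (2 * k) → F) (Gm (2 * k)), (∀ i, φ i ∈ BB (th F (2 * k))) →
    FreeAlgebra.lift F φ f ∈ JJ (res F (2 * k))}

/-- the `k`-th T-ideal -/
noncomputable def II (F : Type) [Field F] [CharP F 3] (k : ℕ) : TwoSidedIdeal (FreeAlgebra F ℕ) :=
  TwoSidedIdeal.mk' (IS F k)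
    (fun φ _ => by rw [map_zero]; exact JJ_zero _)
    (fun hx hy φ hφ => by rw [map_add]; exact JJ_add _ (hx φ hφ) (hy φ hφ))
    (fun hx φ hφ => by rw [map_neg]; exact JJ_neg _ (hx φ hφ))
    (fun hy φ hφ => by rw [map_mul]; exact JJ_left _ _ (lift_mem _ φ hφ _) (hy φ hφ))
    (fun hx φ hφ => by rw [map_mul]; exact JJ_right _ _ (lift_mem _ φ hφ _) (hx φ hφ))

lemma mem_II [CharP F 3] (k : ℕ) (f : FreeAlgebra F ℕ) : f ∈ II F k ↔ f ∈ IS F k := by
  rw [II, TwoSidedIdeal.mem_mk']

lemma II_subst [CharP F 3] (k : ℕ) (ψ : ℕ → FreeAlgebra F ℕ) (g : FreeAlgebra F ℕ)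
    (hg : g ∈ II F k) : FreeAlgebra.lift F ψ g ∈ II F k := by
  rw [mem_II] at *
  intro φ hφ
  rw [map_lift]
  exact hg _ fun i => lift_mem _ φ hφ _

lemma II_noConst [CharP F 3] (k : ℕ) (f : FreeAlgebra F ℕ) (hf : f ∈ II F k) : NoConst f := by
  rw [mem_II] at hf
  obtain ⟨Y, hY, -⟩ := hf (fun _ => 0) (fun _ => zero_mem _)
  have h1 : FreeAlgebra.lift F (fun _ => (0 : PM F (Fin (2 * k) → F) (Gm (2 * k)))) f
      = algebraMap F _ (FreeAlgebra.algebraMapInv f) := by
    have := map_lift (Algebra.ofId F (PM F (Fin (2 * k) → F) (Gm (2 * k)))) (0 : ℕ → F) f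
    simp only [Pi.zero_apply, map_zero] at this
    rw [← this]
    rfl
  rw [h1] at hY
  have h2 := congrArg (fun p : PM F (Fin (2 * k) → F) (Gm (2 * k)) => (p.coeff 0 0 0).coeff 0) hY
  simp only [Polynomial.mul_coeff_zero, Polynomial.coeff_X_pow, Polynomial.algebraMap_apply,
    Polynomial.coeff_C_zero, Matrix.algebraMap_eq_diagonal] at h2
  simpa [NoConst, AddMonoidAlgebra.coe_algebraMap] using h2

lemma II_isTIdeal [CharP F 3] (k : ℕ) : IsTIdeal (II F k) :=
  ⟨II_noConst k, fun ψ _ g hg => II_subst k ψ g hg⟩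

lemma II_matrix [CharP F 3] [Infinite F] (k : ℕ) (f : FreeAlgebra F ℕ)
    (h : Vanishes F (Matrix (Fin 6) (Fin 6) F) f) : f ∈ II F k := by
  rw [mem_II]
  intro φ _
  rw [vanishes_om three_eq (2 * k) f h φ]
  exact JJ_zero _

lemma lift_ff {A : Type} [Ring A] [Algebra F A] (φ : ℕ → A) (j : ℕ) :
    FreeAlgebra.lift F φ (ff (FreeAlgebra.ι F) j) = ff φ j := by
  rw [map_ff]
  simp

lemma ff_mem_II [CharP F 3] (j k : ℕ) (h : j ≠ k) : ff (FreeAlgebra.ι F) j ∈ II F k := by
  rw [mem_II]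
  intro φ hφ
  rw [lift_ff]
  exact ff_mem three_eq (Gm_three _) (th F (2 * k)) _ j
    (fun y hy => res_TT _ _ (by omega) y hy) φ hφ

lemma ff_not_mem_II [CharP F 3] (k : ℕ) : ff (FreeAlgebra.ι F) k ∉ II F k := by
  rw [mem_II]
  intro h
  have := h (xw F (2 * k)) (xw_mem _)
  rw [lift_ff] at this
  exact ff_not_mem k this

/-- the polynomials lying in almost all `II F k` -/
noncomputable def Lim (F : Type) [Field F] [CharP F 3] : TwoSidedIdeal (FreeAlgebra F ℕ) :=
  TwoSidedIdeal.mk' {f | ∀ᶠ k in Filter.atTop, f ∈ II F k}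
    (Filter.Eventually.of_forall fun _ => zero_mem _)
    (fun hx hy => (Filter.Eventually.and hx hy).mono fun _ h => add_mem h.1 h.2)
    (fun hx => Filter.Eventually.mono hx fun _ h => neg_mem h)
    (fun hy => Filter.Eventually.mono hy fun _ h => TwoSidedIdeal.mul_mem_left _ _ _ h)
    (fun hx => Filter.Eventually.mono hx fun _ h => TwoSidedIdeal.mul_mem_right _ _ _ h)

lemma mem_Lim [CharP F 3] (f : FreeAlgebra F ℕ) :
    f ∈ Lim F ↔ ∀ᶠ k in Filter.atTop, f ∈ II F k := by
  rw [Lim, TwoSidedIdeal.mem_mk']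
  rfl

lemma vanishes_quot [CharP F 3] (f : FreeAlgebra F ℕ) :
    Vanishes F (Lim F).ringCon.Quotient f ↔ f ∈ Lim F := by
  have hker : ∀ g : FreeAlgebra F ℕ, (Lim F).ringCon.mkₐ F g = 0 ↔ g ∈ Lim F := by
    intro g
    rw [TwoSidedIdeal.mem_iff, ← RingCon.eq]
    rfl
  constructor
  · intro h
    have h1 := h fun i => (Lim F).ringCon.mkₐ F (FreeAlgebra.ι F i)
    rw [← map_lift] at h1
    rw [← hker]
    have h2 : FreeAlgebra.lift F (FreeAlgebra.ι F) = AlgHom.id F (FreeAlgebra F ℕ) := by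
      ext; simp
    rw [h2] at h1
    exact h1
  · intro h φ
    choose ψ hψ using fun i => (Lim F).ringCon.mkₐ_surjective (α := F) (φ i)
    have h1 : FreeAlgebra.lift F ψ f ∈ Lim F := by
      rw [mem_Lim] at *
      exact h.mono fun k hk => II_subst k ψ f hk
    rw [← hker, map_lift] at h1
    simpa [hψ] using h1

theorem main (F : Type) [Field F] [CharP F 3] [Infinite F] (n : ℕ) (hn : 6 ≤ n) :
    ∃ (A : Type) (_ : Ring A) (_ : Algebra F A),
      (∀ f, IsIdentity F (Matrix (Fin n) (Fin n) F) f → IsIdentity F A f) ∧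
        ¬ FinitelyBased F A := by
  refine ⟨(Lim F).ringCon.Quotient, inferInstance, inferInstance, ?_, ?_⟩
  · rintro f ⟨h1, h2⟩
    refine ⟨h1, (vanishes_quot f).2 ?_⟩
    rw [mem_Lim]
    exact Filter.Eventually.of_forall fun k => II_matrix k f (vanishes_down n hn f h2)
  · rintro ⟨S, hS⟩
    have h1 : ∀ g ∈ S, ∀ᶠ k in Filter.atTop, g ∈ II F k := fun g hg =>
      (mem_Lim g).1 ((vanishes_quot g).1 ((hS g).2 fun I _ hI => hI g hg).2)
    obtain ⟨k, hk⟩ := ((Filter.eventually_all_finset S).2 h1).exists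
    have h2 : ff (FreeAlgebra.ι F) k ∈ Lim F := by
      rw [mem_Lim]
      exact (Filter.eventually_gt_atTop k).mono fun m hm => ff_mem_II k m hm.ne
    have h3 : IsIdentity F (Lim F).ringCon.Quotient (ff (FreeAlgebra.ι F) k) :=
      ⟨II_noConst (k + 1) _ (ff_mem_II k (k + 1) (by omega)), (vanishes_quot _).2 h2⟩
    exact ff_not_mem_II k ((hS _).1 h3 (II F k) (II_isTIdeal k) hk)

end Pool.Agent.H805Z.Specht
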